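import Pool.Agent.helper58.FI.SpecC

/-!
# fi:FSI (MP_baa4d7_al): restriction of `SB`
-/

set_option autoImplicit false

namespace Pool.Agent.FI

open Pool.Agent.helper58.DC Pool.Agent.DI Pool.Agent.GR Pool.Agent.OB Pool.Agent.DR

section
variable {G : Type} [Group G]

theorem FSI_one (M : Ideal (integralClosure ℤ ℂ)) (L' L : Subgroup G) (η ψ : G → ℂ) (hL : L' ≤ L)
    (h1 : ∀ x, x ∉ L' → η x = 0) (h2 : ∀ x, x ∉ L' → ψ x = 0) (h : SB M L' η ψ) : SB M L η ψ := by
  classical
  intro z hz hi
  set z' : G → ℂ := fun x => if x ∈ L' then z x else 0 with hz'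
  have e : ∀ φ : G → ℂ, (∀ x, x ∉ L' → φ x = 0) → cc φ z = cc φ z' := by
    intro φ hφ
    unfold cc
    congr 1
    apply finsum_congr
    intro x
    rw [hz']
    by_cases hx : x ∈ L'
    · simp only [if_pos hx]
    · rw [hφ x hx, mul_zero, mul_zero]
  rw [e η h1, e ψ h2]
  apply h z'
  · constructor
    · intro k hk x
      rw [hz']
      have hmem : k * x * k⁻¹ ∈ L' ↔ x ∈ L' := by
        constructor
        · intro hx
          have := L'.mul_mem (L'.mul_mem (L'.inv_mem hk) hx) hk
          have e2 : k⁻¹ * (k * x * k⁻¹) * k = x := by group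
          rwa [e2] at this
        · intro hx
          exact L'.mul_mem (L'.mul_mem hk hx) (L'.inv_mem hk)
      by_cases hx : x ∈ L'
      · simp only [if_pos hx, if_pos (hmem.2 hx)]
        exact hz.1 k (hL hk) x
      · simp only [if_neg hx, if_neg (fun h3 => hx (hmem.1 h3))]
    · intro x hx
      rw [hz']
      simp only [if_neg hx]
  · intro x
    rw [hz']
    by_cases hx : x ∈ L'
    · simp only [if_pos hx]
      exact hi x
    · simp only [if_neg hx]
      exact isIntegral_zero

open Classical in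
theorem FSI_omega (L : Subgroup G) (φ : G → ℂ) (h : ∀ x, x ∉ L → φ x = 0) (g : G) :
    omega φ g = cc φ (fun x => if x ∈ conjugatesOf g ∧ x ∈ L then 1 else 0) := by
  unfold omega cc
  congr 1
  apply finsum_congr
  intro x
  by_cases hx : x ∈ conjugatesOf g
  · by_cases hL : x ∈ L
    · simp only [hx, hL, and_self, if_true, one_mul, finsum_true]
    · rw [h x hL, mul_zero]
      simp
  · simp only [hx, false_and, if_false, zero_mul, finsum_false]

theorem FSI_mc (M : Ideal (integralClosure ℤ ℂ)) (L : Subgroup G) (η ψ : G → ℂ)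
    (h1 : ∀ x, x ∉ L → η x = 0) (h2 : ∀ x, x ∉ L → ψ x = 0) (h : SB M L η ψ) (g : G) :
    Mcong M (omega η g) (omega ψ g) := by
  classical
  rw [FSI_omega L η h1 g, FSI_omega L ψ h2 g]
  apply h
  · constructor
    · intro k hk x
      have hc : k * x * k⁻¹ ∈ conjugatesOf g ↔ x ∈ conjugatesOf g := by
        have e : IsConj x (k * x * k⁻¹) := isConj_iff.2 ⟨k, rfl⟩
        exact ⟨fun h3 : IsConj g _ => (h3.trans e.symm : IsConj g x),
          fun h3 : IsConj g x => (h3.trans e : IsConj g _)⟩
      have hmem : k * x * k⁻¹ ∈ L ↔ x ∈ L := by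
        constructor
        · intro hx
          have := L.mul_mem (L.mul_mem (L.inv_mem hk) hx) hk
          have e2 : k⁻¹ * (k * x * k⁻¹) * k = x := by group
          rwa [e2] at this
        · intro hx
          exact L.mul_mem (L.mul_mem hk hx) (L.inv_mem hk)
      simp only [hc, hmem]
    · intro x hx
      simp only [hx, and_false, if_false]
  · intro x
    split_ifs
    · exact isIntegral_one
    · exact isIntegral_zero

theorem FSI_imp (M : Ideal (integralClosure ℤ ℂ)) (η ψ χ : G → ℂ)
    (h : ∀ g, Mcong M (omega η g) (omega ψ g)) (hi : Induces M ψ χ) : Induces M η χ := by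
  intro g
  obtain ⟨a, ha, e⟩ := h g
  obtain ⟨b, hb, e'⟩ := hi g
  refine ⟨a + b, M.add_mem ha hb, ?_⟩
  push_cast
  rw [← e, ← e']
  ring

end

theorem FSI : FSI_stmt := by
  intro p M _ G _ _ L' L η ψ
  refine ⟨fun hL h1 h2 h => FSI_one M L' L η ψ hL h1 h2 h, fun h1 h2 h χ => ?_⟩
  exact ⟨fun h3 => FSI_imp M ψ η χ (FSI_mc M L ψ η h2 h1 h.symm) h3,
    fun h3 => FSI_imp M η ψ χ (FSI_mc M L η ψ h1 h2 h) h3⟩

end Pool.Agent.FI
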