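import Pool.Agent.helper95.FI.SpecV
import Pool.Agent.helper23.Slope.RA

/-! # Row fi:NUS (MP_ad8ced_nt): rough numbers in arithmetic progressions -/

set_option autoImplicit false

open Finset

noncomputable section

namespace Pool.Agent.FI

open Pool.Agent.helper96.Slope (rg cg V Rough raω ra_core ra_prod)
open Pool.Agent.Lib.BrunHooley (Z)

theorem NUS_Z (r : ℕ) : Zr r = Z r := rfl

theorem NUS_rough (r n : ℕ) : RghI r (n : ℤ) ↔ Rough r n := by
  unfold RghI Rough
  constructor
  · intro h p hp hd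
    obtain ⟨h1, h2⟩ := Nat.mem_primesLE.mp hp
    exact h p h2 h1 (by exact_mod_cast hd)
  · intro h p hp hle hd
    exact h p (Nat.mem_primesLE.mpr ⟨hle, hp⟩) (by exact_mod_cast hd)

theorem NUS_V_pos (r : ℕ) : 0 < V r := by
  unfold V
  refine prod_pos fun p hp => ?_
  have hpp := (Nat.mem_primesLE.mp hp).2
  have h1 : (1 : ℝ) < p := by exact_mod_cast hpp.one_lt
  rw [sub_pos, div_lt_one (by linarith)]
  exact h1

theorem NUS_kap (r : ℕ) : kap r * V r = 1 := by
  have e : kap r = (V r)⁻¹ := by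
    unfold kap V
    rw [← prod_inv_distrib]
    have hs : (Icc 1 (Zr r)).filter Nat.Prime = Nat.primesLE (Z r) := by
      ext p
      rw [mem_filter, mem_Icc, Nat.mem_primesLE, NUS_Z]
      constructor
      · rintro ⟨⟨_, h2⟩, h3⟩
        exact ⟨h2, h3⟩
      · rintro ⟨h2, h3⟩
        exact ⟨⟨h3.one_le, h2⟩, h3⟩
    rw [hs]
  rw [e]
  exact inv_mul_cancel₀ (NUS_V_pos r).ne'

open scoped Classical in
theorem NUS_sum (r q u : ℕ) (c : ℤ) :
    ∑ l ∈ Ioc (0 : ℤ) u with (q : ℤ) ∣ l - c, nu r l =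
      kap r * ∑ n ∈ Ioc 0 u, rg r n * cg q c n := by
  have h0 : Ioc (0 : ℤ) u = (Ioc 0 u).image (fun n : ℕ => (n : ℤ)) := by
    ext l
    rw [mem_image, mem_Ioc]
    constructor
    · rintro ⟨h1, h2⟩
      exact ⟨l.toNat, mem_Ioc.2 ⟨by omega, by omega⟩, by omega⟩
    · rintro ⟨n, hn, rfl⟩
      rw [mem_Ioc] at hn
      exact ⟨by omega, by omega⟩
  rw [sum_filter, h0, sum_image (fun a _ b _ h => by exact_mod_cast h), mul_sum]
  refine sum_congr rfl fun n _ => ?_
  unfold nu rg cg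
  have h1 : (q : ℤ) ∣ (n : ℤ) - c ↔ (n : ℤ) ≡ c [ZMOD q] := by
    rw [Int.modEq_iff_dvd]
    constructor
    · intro h
      have := (dvd_neg (a := (q : ℤ))).2 h
      rwa [neg_sub] at this
    · intro h
      have := (dvd_neg (a := (q : ℤ))).2 h
      rwa [neg_sub] at this
  by_cases hc : (n : ℤ) ≡ c [ZMOD q]
  · by_cases hr : Rough r n
    · rw [if_pos (h1.2 hc), if_pos ((NUS_rough r n).2 hr), if_pos hr, if_pos hc]
      ring
    · rw [if_pos (h1.2 hc), if_neg (fun h => hr ((NUS_rough r n).1 h)), if_neg hr]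
      ring
  · rw [if_neg (fun h => hc (h1.1 h)), if_neg hc]
    ring

theorem NUS_bound (r q u b : ℕ) (c : ℤ) (hq : 1 ≤ q) (hqr : q ≤ Zr r) (hc : IsCoprime c (q : ℤ)) :
    |∑ l ∈ Ioc (0 : ℤ) u with (q : ℤ) ∣ l - c, nu r l - u / (Nat.totient q : ℝ)| ≤
      (1 / 4 : ℝ) ^ b * u + kap r * (Zr r : ℝ) ^ (42 * (b + 1)) := by
  obtain ⟨h1, h2⟩ := ra_core b r 0 u q c hq hc
  rw [zero_add] at h1 h2
  have h3 := ra_prod r q hq hqr
  have hφ0 : 1 ≤ Nat.totient q := Nat.totient_pos.2 hq
  have hφ : (1 : ℝ) ≤ (Nat.totient q : ℝ) := by exact_mod_cast hφ0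
  have hV := NUS_V_pos r
  have hk := NUS_kap r
  have hkpos : 0 < kap r := by
    by_contra hcon
    push Not at hcon
    nlinarith
  set P := ∏ p ∈ Nat.primesLE (Z r), (1 - raω q p / (p : ℝ)) with hP
  have h4 : (u : ℝ) / q * P = u / (Nat.totient q : ℝ) * V r := by
    rw [← h3]
    field_simp
  have h5 : kap r * ((u : ℝ) / q * P) = u / (Nat.totient q : ℝ) := by
    rw [h4]
    calc kap r * ((u : ℝ) / (Nat.totient q : ℝ) * V r) = u / (Nat.totient q : ℝ) * (kap r * V r) := by ring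
      _ = _ := by rw [hk, mul_one]
  have h6 : (0 : ℝ) ≤ u / (Nat.totient q : ℝ) := by positivity
  have h7 : (u : ℝ) / (Nat.totient q : ℝ) ≤ u := by
    rw [div_le_iff₀ (by linarith)]
    have : (0 : ℝ) ≤ u := Nat.cast_nonneg u
    nlinarith
  have h8 : (0 : ℝ) ≤ (1 / 4 : ℝ) ^ b := by positivity
  rw [NUS_sum]
  have h1' := mul_le_mul_of_nonneg_left h1 hkpos.le
  have h2' := mul_le_mul_of_nonneg_left h2 hkpos.le
  rw [← NUS_Z] at h1' h2'
  have e1 : kap r * ((1 - (1 / 4 : ℝ) ^ b) * (u / q) * P - (Zr r : ℝ) ^ (42 * (b + 1))) =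
      (1 - (1 / 4 : ℝ) ^ b) * (kap r * ((u : ℝ) / q * P)) - kap r * (Zr r : ℝ) ^ (42 * (b + 1)) := by ring
  have e2 : kap r * ((1 + (1 / 4 : ℝ) ^ b) * (u / q) * P + (Zr r : ℝ) ^ (42 * (b + 1))) =
      (1 + (1 / 4 : ℝ) ^ b) * (kap r * ((u : ℝ) / q * P)) + kap r * (Zr r : ℝ) ^ (42 * (b + 1)) := by ring
  rw [e1, h5] at h1'
  rw [e2, h5] at h2'
  have h9 := mul_le_mul_of_nonneg_left h7 h8
  rw [abs_le]
  constructor
  · linarith
  · linarith

theorem NUS_ev (K : ℝ) : ∃ x₀ : ℕ, ∀ x : ℕ, x₀ ≤ x → 0 < x ∧ 4 ≤ Real.log x ∧ 1 ≤ Real.log (Real.log x) ∧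
    K * Real.log (Real.log x) ^ 2 ≤ Real.log x := by
  have h1 : Filter.Tendsto (fun x : ℕ => Real.log (x : ℝ)) Filter.atTop Filter.atTop :=
    Real.tendsto_log_atTop.comp tendsto_natCast_atTop_atTop
  have h2 : Filter.Tendsto (fun x : ℕ => Real.log (Real.log (x : ℝ))) Filter.atTop Filter.atTop :=
    Real.tendsto_log_atTop.comp h1
  have h3 : ∀ᶠ y : ℝ in Filter.atTop, K * Real.log y ^ 2 ≤ y := by
    have h4 := (Real.isLittleO_pow_log_id_atTop (n := 2)).bound (show (0 : ℝ) < 1 / (|K| + 1) by positivity)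
    filter_upwards [h4, Filter.eventually_ge_atTop (0 : ℝ)] with y hy hy0
    rw [Real.norm_of_nonneg (by positivity), id_eq, Real.norm_of_nonneg hy0] at hy
    have h5 : (|K| + 1) * Real.log y ^ 2 ≤ y := by
      have := mul_le_mul_of_nonneg_left hy (show (0 : ℝ) ≤ |K| + 1 by positivity)
      have e : (|K| + 1) * (1 / (|K| + 1) * y) = y := by
        field_simp
      rw [e] at this
      exact this
    have h6 : K * Real.log y ^ 2 ≤ (|K| + 1) * Real.log y ^ 2 := by
      apply mul_le_mul_of_nonneg_right _ (by positivity)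
      linarith [le_abs_self K]
    linarith
  have h4 := h1.eventually h3
  have h5 := h1.eventually_ge_atTop 4
  have h6 := h2.eventually_ge_atTop 1
  have h7 := Filter.eventually_gt_atTop (0 : ℕ)
  obtain ⟨x₀, hx⟩ := Filter.eventually_atTop.1 (((h7.and h5).and h6).and h4)
  exact ⟨x₀, fun x hx' => ⟨(hx x hx').1.1.1, (hx x hx').1.1.2, (hx x hx').1.2, (hx x hx').2⟩⟩

theorem NUS (hKAP : KAP_stmt) : NUS_stmt := by
  intro A C₅
  obtain ⟨C, hC0, hC⟩ := hKAP
  obtain ⟨x₀, hx₀⟩ := NUS_ev (86 * C₅ * (A + 7) + A + |Real.log (2 * C)|)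
  refine ⟨x₀, fun x hx r hr q hq hqr c u hu => ⟨fun hc => ?_, fun hc => ?_⟩⟩
  · obtain ⟨hx0, hL4, hLL, hK⟩ := hx₀ x hx
    set L := Real.log x with hL
    set M := Real.log L with hM
    have hL0 : 0 < L := by linarith
    have hxR : (0 : ℝ) < x := by exact_mod_cast hx0
    have hexpL : Real.exp L = x := Real.exp_log hxR
    have hexpM : Real.exp M = L := Real.exp_log hL0
    set b : ℕ := ⌈((A : ℝ) + 5) * M⌉₊ with hb
    have hb1 : ((A : ℝ) + 5) * M ≤ b := Nat.le_ceil _
    have hb2 : (b : ℝ) < ((A : ℝ) + 5) * M + 1 := Nat.ceil_lt_add_one (by positivity)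
    refine (NUS_bound r q u b c hq hqr hc).trans ?_
    have hLA : 0 < L ^ A := by positivity
    -- first term
    have t1 : (1 / 4 : ℝ) ^ b * u ≤ x / (2 * L ^ A) := by
      have e1 : (1 / 4 : ℝ) ^ b ≤ (L ^ (A + 5))⁻¹ := by
        have e2 : (1 / 4 : ℝ) ≤ Real.exp (-1) := by
          rw [Real.exp_neg, ← one_div]
          apply one_div_le_one_div_of_le (Real.exp_pos 1)
          have := Real.exp_one_lt_d9
          linarith
        calc (1 / 4 : ℝ) ^ b ≤ (Real.exp (-1)) ^ b := pow_le_pow_left₀ (by norm_num) e2 b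
          _ = Real.exp (-(b : ℝ)) := by
            rw [← Real.exp_nat_mul]
            congr 1
            ring
          _ ≤ Real.exp (-(((A : ℝ) + 5) * M)) := Real.exp_le_exp.2 (by linarith)
          _ = (L ^ (A + 5))⁻¹ := by
            rw [Real.exp_neg]
            congr 1
            have : ((A : ℝ) + 5) * M = ((A + 5 : ℕ) : ℝ) * M := by push_cast; ring
            rw [this, Real.exp_nat_mul, hexpM]
      have e3 : (u : ℝ) ≤ 2 * x := by exact_mod_cast hu
      calc (1 / 4 : ℝ) ^ b * u ≤ (L ^ (A + 5))⁻¹ * (2 * x) := by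
            apply mul_le_mul e1 e3 (Nat.cast_nonneg u) (by positivity)
        _ ≤ x / (2 * L ^ A) := by
            rw [inv_mul_eq_div, div_le_div_iff₀ (by positivity) (by positivity), pow_add]
            have e4 : (4 : ℝ) ≤ L ^ 5 := by
              calc (4 : ℝ) ≤ L := hL4
                _ = L ^ 1 := (pow_one L).symm
                _ ≤ L ^ 5 := pow_le_pow_right₀ (by linarith) (by norm_num)
            have e5 : 0 ≤ (x : ℝ) * L ^ A := by positivity
            nlinarith [mul_le_mul_of_nonneg_left e4 e5]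
    -- second term
    have t2 : kap r * (Zr r : ℝ) ^ (42 * (b + 1)) ≤ x / (2 * L ^ A) := by
      have hZ1 : (1 : ℝ) ≤ Zr r := by
        have : 1 ≤ Zr r := Nat.one_le_two_pow
        exact_mod_cast this
      have e1 : kap r ≤ C * Zr r := by
        refine (hC r).2.trans ?_
        apply mul_le_mul_of_nonneg_left _ hC0.le
        have := Real.log_le_sub_one_of_pos (show (0 : ℝ) < Zr r by linarith)
        linarith
      have e2 : kap r * (Zr r : ℝ) ^ (42 * (b + 1)) ≤ C * (Zr r : ℝ) ^ (42 * (b + 1) + 1) := by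
        calc kap r * (Zr r : ℝ) ^ (42 * (b + 1)) ≤ (C * Zr r) * (Zr r : ℝ) ^ (42 * (b + 1)) := by
              apply mul_le_mul_of_nonneg_right e1 (by positivity)
          _ = C * (Zr r : ℝ) ^ (42 * (b + 1) + 1) := by rw [pow_succ]; ring
      have e3 : (Zr r : ℝ) ^ (42 * (b + 1) + 1) ≤ Real.exp (86 * C₅ * (A + 7) * M ^ 2) := by
        calc (Zr r : ℝ) ^ (42 * (b + 1) + 1) ≤ (L ^ (2 * C₅)) ^ (42 * (b + 1) + 1) :=
              pow_le_pow_left₀ (by linarith) hr _
          _ = Real.exp (((2 * C₅ * (42 * (b + 1) + 1) : ℕ) : ℝ) * M) := by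
              rw [← pow_mul, Real.exp_nat_mul, hexpM]
          _ ≤ Real.exp (86 * C₅ * (A + 7) * M ^ 2) := by
              apply Real.exp_le_exp.2
              push_cast
              have f1 : (42 : ℝ) * (b + 1) + 1 ≤ 43 * ((A + 7) * M) := by
                have f2 : (b : ℝ) + 1 ≤ (A + 7) * M := by nlinarith
                have f3 : (0 : ℝ) ≤ b := Nat.cast_nonneg b
                linarith
              have f4 : (0 : ℝ) ≤ 2 * C₅ * M := by positivity
              nlinarith [mul_le_mul_of_nonneg_left f1 f4]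
      have e4 : L ^ A ≤ Real.exp (A * M ^ 2) := by
        have : L ^ A = Real.exp (A * M) := by rw [Real.exp_nat_mul, hexpM]
        rw [this]
        apply Real.exp_le_exp.2
        have f5 : (0 : ℝ) ≤ A := Nat.cast_nonneg A
        have f9 : M ≤ M ^ 2 := by nlinarith
        exact mul_le_mul_of_nonneg_left f9 f5
      have e5 : 2 * C ≤ Real.exp (|Real.log (2 * C)| * M ^ 2) := by
        have : 2 * C = Real.exp (Real.log (2 * C)) := (Real.exp_log (by positivity)).symm
        calc 2 * C = Real.exp (Real.log (2 * C)) := this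
          _ ≤ Real.exp (|Real.log (2 * C)| * M ^ 2) := by
            apply Real.exp_le_exp.2
            have f6 := le_abs_self (Real.log (2 * C))
            have f7 := abs_nonneg (Real.log (2 * C))
            have f8 : 1 ≤ M ^ 2 := one_le_pow₀ hLL
            nlinarith
      rw [le_div_iff₀ (by positivity)]
      calc kap r * (Zr r : ℝ) ^ (42 * (b + 1)) * (2 * L ^ A)
          ≤ (C * Real.exp (86 * C₅ * (A + 7) * M ^ 2)) * (2 * L ^ A) := by
            apply mul_le_mul_of_nonneg_right _ (by positivity)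
            exact e2.trans (mul_le_mul_of_nonneg_left e3 hC0.le)
        _ = Real.exp (86 * C₅ * (A + 7) * M ^ 2) * L ^ A * (2 * C) := by ring
        _ ≤ Real.exp (86 * C₅ * (A + 7) * M ^ 2) * Real.exp (A * M ^ 2) *
            Real.exp (|Real.log (2 * C)| * M ^ 2) := by
            apply mul_le_mul _ e5 (by positivity) (by positivity)
            exact mul_le_mul_of_nonneg_left e4 (Real.exp_pos _).le
        _ = Real.exp ((86 * C₅ * (A + 7) + A + |Real.log (2 * C)|) * M ^ 2) := by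
            rw [← Real.exp_add, ← Real.exp_add]
            congr 1
            ring
        _ ≤ Real.exp L := Real.exp_le_exp.2 hK
        _ = x := hexpL
    have e : (x : ℝ) / L ^ A = x / (2 * L ^ A) + x / (2 * L ^ A) := by
      field_simp
      ring
    rw [e]
    linarith
  · apply sum_eq_zero
    intro l hl
    rw [mem_filter] at hl
    unfold nu
    rw [if_neg]
    intro hrough
    apply hc
    rw [Int.isCoprime_iff_gcd_eq_one]
    by_contra hg
    obtain ⟨p, hp, hpd⟩ := Nat.exists_prime_and_dvd hg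
    have h1 : (p : ℤ) ∣ c := (Int.natCast_dvd_natCast.2 hpd).trans (Int.gcd_dvd_left ..)
    have h2 : (p : ℤ) ∣ (q : ℤ) := (Int.natCast_dvd_natCast.2 hpd).trans (Int.gcd_dvd_right ..)
    have h3 : p ∣ q := Int.natCast_dvd_natCast.1 h2
    have h4 : p ≤ Zr r := (Nat.le_of_dvd hq h3).trans hqr
    refine hrough p hp h4 ?_
    have h5 : (p : ℤ) ∣ l - c := h2.trans hl.2
    have := dvd_add h5 h1
    simpa using this

end Pool.Agent.FI
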