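import Pool.Agent.helper36.HK.SpecN

/-! # Row fi:KPS (MP_ad8ced_nt): the constant as an absolutely convergent product -/

set_option autoImplicit false

open Finset

noncomputable section

namespace Pool.Agent.FI

/-- the factor at `p` -/
def KPS_f (p : ℕ) : ℝ := (1 - gg p) / (1 - 1 / (p : ℝ))

theorem KPS_val (p : ℕ) (hp : p.Prime) : 0 < KPS_f p ∧ |KPS_f p - 1| ≤ 8 * (1 / (p : ℝ) ^ 2) := by
  have h2 : 2 ≤ p := hp.two_le
  have h2' : (2 : ℝ) ≤ p := by exact_mod_cast h2
  have hp0 : (0 : ℝ) < p := by linarith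
  have hp1 : (0 : ℝ) < p - 1 := by linarith
  rcases hp.eq_two_or_odd with rfl | hodd
  · have e : KPS_f 2 = 1 := by
      unfold KPS_f gg ch8
      norm_num
    rw [e]
    norm_num
  · have h4 : p % 8 = 1 ∨ p % 8 = 3 ∨ p % 8 = 5 ∨ p % 8 = 7 := by omega
    have hd : (p : ℝ) - 1 ≠ 0 := hp1.ne'
    have hd2 : (p : ℝ) ≠ 0 := hp0.ne'
    have hd3 : (p : ℝ) + 1 ≠ 0 := by linarith
    by_cases h17 : p % 8 = 1 ∨ p % 8 = 7
    · have h7 : 7 ≤ p := by
        rcases h17 with h | h
        · by_contra hcon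
          have : p = 1 := by omega
          rw [this] at hp
          exact Nat.not_prime_one hp
        · omega
      have h7' : (7 : ℝ) ≤ p := by exact_mod_cast h7
      have e : KPS_f p = 1 - 1 / ((p : ℝ) - 1) ^ 2 := by
        unfold KPS_f gg ch8
        rw [if_pos h17]
        have : (1 : ℝ) - 1 / p ≠ 0 := by
          rw [sub_ne_zero]
          intro h
          rw [eq_div_iff hd2] at h
          linarith
        field_simp
        ring
      have hb : 1 / ((p : ℝ) - 1) ^ 2 ≤ 1 / 2 := by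
        rw [div_le_div_iff₀ (by positivity) (by norm_num)]
        nlinarith
      constructor
      · rw [e]; linarith
      · rw [e]
        have e2 : |1 - 1 / ((p : ℝ) - 1) ^ 2 - 1| = 1 / ((p : ℝ) - 1) ^ 2 := by
          rw [show (1 : ℝ) - 1 / ((p : ℝ) - 1) ^ 2 - 1 = -(1 / ((p : ℝ) - 1) ^ 2) by ring, abs_neg,
            abs_of_nonneg (by positivity)]
        rw [e2, ← mul_one_div, one_mul, mul_one_div, div_le_div_iff₀ (by positivity) (by positivity)]
        nlinarith
    · have h35 : p % 8 = 3 ∨ p % 8 = 5 := by omega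
      have e : KPS_f p = 1 + 1 / ((p : ℝ) ^ 2 - 1) := by
        unfold KPS_f gg ch8
        rw [if_neg h17, if_pos h35]
        have : (1 : ℝ) - 1 / p ≠ 0 := by
          rw [sub_ne_zero]
          intro h
          rw [eq_div_iff hd2] at h
          linarith
        have h5 : (p : ℝ) ^ 2 - 1 ≠ 0 := by nlinarith
        have h6 : (p : ℝ) - -1 ≠ 0 := by linarith
        field_simp
        ring
      have hpos : 0 < (p : ℝ) ^ 2 - 1 := by nlinarith
      constructor
      · rw [e]; positivity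
      · rw [e, add_sub_cancel_left, abs_of_pos (by positivity), mul_one_div,
          div_le_div_iff₀ hpos (by positivity)]
        nlinarith

theorem KPS_summable : Summable fun p : Nat.Primes => Real.log (KPS_f p) := by
  have h1 : Summable fun n : ℕ => 8 * (1 / (n : ℝ) ^ 2) :=
    (Real.summable_one_div_nat_pow.2 (by norm_num)).mul_left 8
  have h2 : Summable fun p : Nat.Primes => 8 * (1 / ((p : ℕ) : ℝ) ^ 2) :=
    h1.comp_injective Nat.Primes.coe_nat_injective
  have h3 : Summable fun p : Nat.Primes => KPS_f p - 1 :=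
    Summable.of_norm_bounded h2 (fun p => by
      rw [Real.norm_eq_abs]
      exact (KPS_val p p.2).2)
  have h4 := Real.summable_log_one_add_of_summable h3
  refine h4.congr (fun p => ?_)
  congr 1
  ring

/-- the primes up to `Zr r` -/
def KPS_s (r : ℕ) : Finset Nat.Primes := (Finset.range (Zr r + 1)).subtype Nat.Prime

theorem KPS_s_prod (r : ℕ) : ∏ p ∈ KPS_s r, KPS_f p =
    kap r * ∏ p ∈ Nat.primesLE (Zr r), (1 - gg p) := by
  have h1 : ∏ p ∈ KPS_s r, KPS_f p = ∏ p ∈ (Finset.range (Zr r + 1)).filter Nat.Prime, KPS_f p :=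
    Finset.prod_subtype_eq_prod_filter (s := Finset.range (Zr r + 1)) (p := Nat.Prime) (fun p => KPS_f p)
  have h2 : (Finset.range (Zr r + 1)).filter Nat.Prime = Nat.primesLE (Zr r) := by
    ext p
    rw [mem_filter, mem_range, Nat.mem_primesLE, Nat.lt_succ_iff]
  have h3 : (Icc 1 (Zr r)).filter Nat.Prime = Nat.primesLE (Zr r) := by
    ext p
    rw [mem_filter, mem_Icc, Nat.mem_primesLE]
    constructor
    · rintro ⟨⟨_, h2⟩, h3⟩
      exact ⟨h2, h3⟩
    · rintro ⟨h2, h3⟩
      exact ⟨⟨h3.one_le, h2⟩, h3⟩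
  rw [h1, h2, kap, h3, ← prod_mul_distrib]
  refine prod_congr rfl fun p _ => ?_
  unfold KPS_f
  rw [div_eq_mul_inv, mul_comm]

theorem KPS_s_mem (r : ℕ) (p : Nat.Primes) : p ∈ KPS_s r ↔ (p : ℕ) < Zr r + 1 :=
  (Finset.mem_subtype (p := Nat.Prime) (s := Finset.range (Zr r + 1)) (a := p)).trans mem_range

theorem KPS_s_tendsto : Filter.Tendsto KPS_s Filter.atTop Filter.atTop := by
  apply Filter.tendsto_atTop_finset_of_monotone
  · intro r r' h p hp
    rw [KPS_s_mem] at hp ⊢
    have : Zr r ≤ Zr r' := Nat.pow_le_pow_right (by norm_num) (Nat.pow_le_pow_right (by norm_num) h)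
    omega
  · intro p
    refine ⟨(p : ℕ), ?_⟩
    rw [KPS_s_mem]
    have h1 : (p : ℕ) < 2 ^ (p : ℕ) := Nat.lt_two_pow_self
    have h2 : 2 ^ (p : ℕ) < 2 ^ 2 ^ (p : ℕ) := Nat.pow_lt_pow_right (by norm_num) h1
    unfold Zr
    omega

theorem KPS : KPS_stmt := by
  have hpos : ∀ p : Nat.Primes, 0 < KPS_f p := fun p => (KPS_val p p.2).1
  have hSg : Sg = ∏' p : Nat.Primes, KPS_f p := rfl
  constructor
  · rw [hSg, ← Real.rexp_tsum_eq_tprod hpos KPS_summable]
    exact Real.exp_pos _
  · have hm : Multipliable fun p : Nat.Primes => KPS_f p :=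
      Real.multipliable_of_summable_log hpos KPS_summable
    have h1 : Filter.Tendsto (fun s : Finset Nat.Primes => ∏ p ∈ s, KPS_f p) Filter.atTop (nhds Sg) := by
      rw [hSg]
      exact hm.hasProd
    have h2 := h1.comp KPS_s_tendsto
    refine h2.congr (fun r => ?_)
    exact KPS_s_prod r

end Pool.Agent.FI
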