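import Pool.Agent.helper22.FI.SpecA

/-!
# fi:DEX (MP_baa4d7_al): existence of defect groups of blocks of a subgroup
-/

set_option autoImplicit false

namespace Pool.Agent.FI

open Pool.Agent.helper58.DC Pool.Agent.DI Pool.Agent.GR Pool.Agent.OB

theorem DEX (h1 : BLE_stmt) (h2 : SUP_stmt) (h3 : DCM_stmt) (h4 : SYL_stmt) (h5 : CLS_stmt) : DEX_stmt := by
  intro p M h G _ _ L ψ hψ
  haveI : Fact p.Prime := ⟨h.pr⟩
  obtain ⟨-, hCF, hInt, -, hone, -, hreg, hBl⟩ := h1 p M h G L L le_rfl ψ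
  rw [hBl] at hCF hInt hone hreg
  set e := eS L (Bl M L ψ) with he
  have hcc : cc ψ e = 1 := hone ψ ⟨hψ, SB.refl L ψ⟩
  obtain ⟨hD1, -⟩ := h3 G L M p h
  have hIC : ∀ x, IntAt M (cc ψ (cls L x)) := fun x =>
    IntAt.of_isIntegral h ((h5 G L x).2.2.2.2.2.2.2.2 L le_rfl ψ hψ)
  have hex : ∃ y, ¬ InM M (e y) ∧ ¬ InM M (cc ψ (cls L y)) := by
    by_contra hcon
    push Not at hcon
    have h6 := (hD1 ψ e (fun l hl x => hCF.1 l hl x) hInt hIC).2 (fun x => by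
      by_cases h7 : InM M (e x)
      · exact Or.inl h7
      · exact Or.inr (hcon x h7))
    rw [hcc] at h6
    exact InM.not_one h h6
  obtain ⟨y, hy1, hy2⟩ := hex
  have hyL : y ∈ L := by
    by_contra hn
    apply hy1
    rw [hCF.2 y hn]
    exact InM.zero h
  have hyr : PReg p y := by
    by_contra hn
    apply hy1
    rw [hreg y hn]
    exact InM.zero h
  obtain ⟨sa, sb, -, -, se, -⟩ := h4 p G
  obtain ⟨D, -, hD2, hD3, hD4⟩ := sb ⊥ (Cz L y) IsPGroup.of_bot bot_le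
  refine ⟨D, y, ⟨hyr, hyL, hD2, hD3, hD4, hy2, ?_⟩, hy1⟩
  intro y' hy' hn'
  obtain ⟨l, hl, hl2⟩ := h2 p M h G L ψ hψ y hyL hy1 y' hy' hn' D hD3 hD2
  have hle : D.map (MulAut.conj l⁻¹).toMonoidHom ≤ Cz L y' := by
    rintro x hx
    obtain ⟨d, hd, rfl⟩ := Subgroup.mem_map.1 hx
    have := hl2 d hd
    have e2 : (MulAut.conj l⁻¹).toMonoidHom d = l⁻¹ * d * l := by
      simp [MulAut.conj_apply]
    rw [e2]
    exact this
  have h8 := (sa (D.map (MulAut.conj l⁻¹).toMonoidHom) (Cz L y') (hD3.map _) hle).1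
  rw [(se D l⁻¹).2] at h8
  exact h8

end Pool.Agent.FI
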